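import Pool.Agent.T6.H92.TG.Out

/-!
Mean width of square-lattice self-avoiding polygons: smoothness of all orders in the perimeter.
-/

set_option autoImplicit false

namespace Pool.Agent.Results.MP_c23e5f_co.AllOrderSmoothness

/-- a closed nearest-neighbour loop on `ℤ²` with `m` steps, rooted at the origin and oriented,
that visits no vertex twice -/
def IsLoop (m : ℕ) (f : ZMod m → ℤ × ℤ) : Prop :=
  f 0 = 0 ∧ Function.Injective f ∧
    ∀ i : ZMod m, |(f (i + 1)).1 - (f i).1| + |(f (i + 1)).2 - (f i).2| = 1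

/-- the width (horizontal extent) of a loop -/
noncomputable def width (m : ℕ) (f : ZMod m → ℤ × ℤ) : ℕ :=
  sSup {w : ℕ | ∃ i j, w = ((f i).1 - (f j).1).natAbs}

/-- the mean width `W_n` of the self-avoiding polygons of perimeter `2 n`: the average of the
width over the rooted oriented polygons. -/
noncomputable def W (n : ℕ) : ℝ :=
  (∑ᶠ f ∈ {f : ZMod (2 * n) → ℤ × ℤ | IsLoop (2 * n) f}, (width (2 * n) f : ℝ)) /
    ({f : ZMod (2 * n) → ℤ × ℤ | IsLoop (2 * n) f}.ncard : ℝ)

/-- the iterated forward differences `Δ^k u (n)`, where `Δ u (n) = u (n + 1) - u n` -/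
def diff : ℕ → (ℕ → ℝ) → ℕ → ℝ
  | 0, u, n => u n
  | k + 1, u, n => diff k u (n + 1) - diff k u n

theorem diff_eq (k : ℕ) (u : ℕ → ℝ) : ∀ n, diff k u n = Pool.Agent.T6.H92.TG.D k u n := by
  induction k with
  | zero => intro n; rfl
  | succ k ih =>
    intro n
    show diff k u (n + 1) - diff k u n = _
    rw [ih, ih]
    rfl

/-- **Theorem.** For every `k` there is a constant `C` with
(1) `|Δ^k W_n| ≤ C (log n / √n)^k W_n` for all `n ≥ 2`;
(2) `|W_{n+h} - ∑_{j<k} binomial(h, j) Δ^j W_n| ≤ C (h log n / √n)^k W_n` for all `n ≥ 2` and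
`h ≤ √n / log n`. -/
theorem result : ∀ k : ℕ, ∃ C : ℝ,
    (∀ n : ℕ, 2 ≤ n → |diff k W n| ≤ C * ((Real.log n / Real.sqrt n) ^ k * W n)) ∧
    ∀ n h : ℕ, 2 ≤ n → h * Real.log n ≤ Real.sqrt n →
      |W (n + h) - ∑ j ∈ Finset.range k, (h.choose j : ℝ) * diff j W n| ≤
        C * ((h * (Real.log n / Real.sqrt n)) ^ k * W n) := by
  intro k
  simp only [diff_eq]
  exact Pool.Agent.T6.H92.TG.both W (fun n hn => Pool.Agent.H739K.MW_pos hn)
    Pool.Agent.T6.H92.TG.width_all k

end Pool.Agent.Results.MP_c23e5f_co.AllOrderSmoothness
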