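import Pool.Agent.T6.H53.CP.MainB
import Pool.Agent.T6.H53.CP.Boxes
import Pool.Agent.T6.H53.CP.Snk
import Pool.Agent.T6.H53.CP.Cls
import Pool.Agent.T6.H53.CP.Blk
import Pool.Agent.T6.H53.CP.Chn
import Pool.Agent.T6.H53.CP.Side
import Pool.Agent.T6.H53.CP.Loop
import Pool.Agent.T6.H53.CP.Expl
import Pool.Agent.T6.H53.CP.Expo2

/-!
Planar self-avoiding polygons confined to strips and boxes: lower and upper bounds of the
probability that the width, or the width and the height, are small, in terms of the correlation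
length and of the rate function of the width.
-/

set_option autoImplicit false

namespace Pool.Agent.Results.MP_c23e5f_co.ConfinedPolygons

open Filter Topology

/-- a closed nearest-neighbour loop on `ℤ²` with `m` steps, rooted at the origin and oriented,
that visits no vertex twice -/
def IsLoop (m : ℕ) (f : ZMod m → ℤ × ℤ) : Prop :=
  f 0 = 0 ∧ Function.Injective f ∧
    ∀ i : ZMod m, |(f (i + 1)).1 - (f i).1| + |(f (i + 1)).2 - (f i).2| = 1

/-- the width (horizontal extent) of a loop -/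
noncomputable def width (m : ℕ) (f : ZMod m → ℤ × ℤ) : ℕ :=
  sSup {w : ℕ | ∃ i j, w = ((f i).1 - (f j).1).natAbs}

/-- the height (vertical extent) of a loop -/
noncomputable def height (m : ℕ) (f : ZMod m → ℤ × ℤ) : ℕ :=
  sSup {w : ℕ | ∃ i j, w = ((f i).2 - (f j).2).natAbs}

/-- `Prob(w_n ≥ r)`: the proportion of the self-avoiding polygons of perimeter `2 n` with width at
least `r` -/
noncomputable def wide (n : ℕ) (r : ℝ) : ℝ :=
  ({f : ZMod (2 * n) → ℤ × ℤ | IsLoop (2 * n) f ∧ r ≤ width (2 * n) f}.ncard : ℝ) /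
    ({f : ZMod (2 * n) → ℤ × ℤ | IsLoop (2 * n) f}.ncard : ℝ)

/-- `Prob(w_n ≤ r)`: the proportion of the self-avoiding polygons of perimeter `2 n` with width at
most `r` -/
noncomputable def narrow (n : ℕ) (r : ℝ) : ℝ :=
  ({f : ZMod (2 * n) → ℤ × ℤ | IsLoop (2 * n) f ∧ (width (2 * n) f : ℝ) ≤ r}.ncard : ℝ) /
    ({f : ZMod (2 * n) → ℤ × ℤ | IsLoop (2 * n) f}.ncard : ℝ)

/-- `Prob(w_n ≤ W, h_n ≤ H)`: the proportion of the self-avoiding polygons of perimeter `2 n` with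
width at most `W` and height at most `H` -/
noncomputable def boxed (n : ℕ) (W H : ℝ) : ℝ :=
  ({f : ZMod (2 * n) → ℤ × ℤ | IsLoop (2 * n) f ∧ (width (2 * n) f : ℝ) ≤ W ∧
    (height (2 * n) f : ℝ) ≤ H}.ncard : ℝ) /
    ({f : ZMod (2 * n) → ℤ × ℤ | IsLoop (2 * n) f}.ncard : ℝ)

/-- `ω` is an `n`-step self-avoiding walk on `ℤ²` started at the origin. -/
def IsSAW (n : ℕ) (ω : Fin (n + 1) → ℤ × ℤ) : Prop :=
  ω 0 = (0, 0) ∧
  (∀ i : Fin n, |(ω i.succ).1 - (ω i.castSucc).1| + |(ω i.succ).2 - (ω i.castSucc).2| = 1) ∧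
  Function.Injective ω

/-- `c_n`: the number of `n`-step self-avoiding walks from the origin -/
noncomputable def c (n : ℕ) : ℕ := Nat.card {ω : Fin (n + 1) → ℤ × ℤ // IsSAW n ω}

/-- `c_n(x)`: the number of `n`-step self-avoiding walks from the origin to `x` -/
noncomputable def cx (n : ℕ) (x : ℤ × ℤ) : ℕ :=
  Nat.card {ω : Fin (n + 1) → ℤ × ℤ // IsSAW n ω ∧ ω (Fin.last n) = x}

/-- the two-point function `G_z(x) = ∑_n c_n(x) z^n` -/
noncomputable def G (z : ℝ) (x : ℤ × ℤ) : ℝ := ∑' n : ℕ, (cx n x : ℝ) * z ^ n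

theorem c_eq (n : ℕ) : c n = TH795.EP.c n := TH795.EP2.card_walks n

theorem cx_eq (n : ℕ) (x : ℤ × ℤ) : cx n x = TH795.EP.a n x.1 x.2 := TH795.EP2.card_walks_to n x

theorem G_eq (z : ℝ) (k : ℕ) : G z ((k : ℤ), 0) = Y981.L2.Gz z k 0 := by
  unfold G Y981.L2.Gz
  apply tsum_congr
  intro n
  rw [cx_eq]

/-- **Theorem.** Let `w_n` and `h_n` be the width and the height of the uniform self-avoiding
polygon of perimeter `2 n`, `μ = lim c_n^(1/n)` the connective constant,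
`ξ(z) = (lim_k - (1/k) log G_z((k, 0)))^(-1)` (`0 < z < 1/μ`) the correlation length and
`J(u) = - (1/2) lim_n (1/n) log Prob(w_n ≥ u n)` (`0 < u < 1`) the rate function of the width.
There are constants `C, a > 0` with:
(1) for all `N ≥ 2` and `n ≥ C N²`, with `ℓ = (log N)² ξ(e^(-1/N) / μ)`: if `W, H ≥ C ℓ`,
`max(W, H) ≥ C N ℓ` and `W H ≥ C (n / N) ℓ²` then
`Prob(w_n ≤ W, h_n ≤ H) ≥ exp(- C (n / N) (log N)²)`; and if `k ≥ C ℓ` then
`Prob(w_n ≤ k) ≥ exp(- C (n / N) (log N)²)`;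
(2) `Prob(w_n ≤ k) ≤ exp(C (log n)² - 2 n J(2 / (k + 1) - 1 / n))` for `1 ≤ k < n`;
(3) for every large `k` and every large `n` (depending on `k`):
`exp(- n k^(- (1 + a / log log k))) ≤ Prob(w_n ≤ k) ≤ exp(- n k^(- C log log k))`;
for every large `b` and every large `n` (depending on `b`):
`Prob(w_n, h_n ≤ √(b n)) ≥ exp(- n b^(- (1 + a / log log b)))`;
(4) if `0 < θ < 1` and `ξ(z) ≤ (1/μ - z)^(-(θ + o(1)))` as `z ↑ 1/μ` then for every `ε > 0`, in the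
same sense, `exp(- n k^(- (1/θ - ε))) ≤ Prob(w_n ≤ k) ≤ exp(- n k^(- (1/(1 - θ) + ε)))` and, if
`θ > 1/2`, `Prob(w_n, h_n ≤ √(b n)) ≥ exp(- n b^(- (1/(2 θ - 1) - ε)))`. -/
theorem result : ∃ (μ : ℝ) (ξ J : ℝ → ℝ) (C a : ℝ), 0 < μ ∧ 0 < C ∧ 0 < a ∧
    Tendsto (fun n : ℕ => (c n : ℝ) ^ (1 / (n : ℝ))) atTop (𝓝 μ) ∧
    (∀ z : ℝ, 0 < z → z < 1 / μ → 0 < ξ z ∧
      Tendsto (fun k : ℕ => - Real.log (G z ((k : ℤ), 0)) / k) atTop (𝓝 (1 / ξ z))) ∧
    (∀ u : ℝ, 0 < u → u < 1 → 0 < J u ∧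
      Tendsto (fun n : ℕ => Real.log (wide n (u * n)) / n) atTop (𝓝 (-(2 * J u)))) ∧
    (∀ N : ℕ, 2 ≤ N → ∀ n : ℕ, C * (N : ℝ) ^ 2 ≤ n → ∀ ℓ : ℝ,
      ℓ = Real.log N ^ 2 * ξ (Real.exp (-(1 / (N : ℝ))) / μ) →
      (∀ W H : ℝ, C * ℓ ≤ W → C * ℓ ≤ H → C * (N * ℓ) ≤ max W H → C * (n / N * ℓ ^ 2) ≤ W * H →
        Real.exp (-(C * (n / N * Real.log N ^ 2))) ≤ boxed n W H) ∧
      ∀ k : ℝ, C * ℓ ≤ k → Real.exp (-(C * (n / N * Real.log N ^ 2))) ≤ narrow n k) ∧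
    (∀ n : ℕ, 2 ≤ n → ∀ k : ℕ, 1 ≤ k → k < n →
      narrow n k ≤ Real.exp (C * Real.log n ^ 2 - 2 * n * J (2 / ((k : ℝ) + 1) - 1 / n))) ∧
    ((∀ᶠ k : ℕ in atTop, ∀ᶠ n : ℕ in atTop,
      Real.exp (-(n * (k : ℝ) ^ (-(1 + a / Real.log (Real.log k))))) ≤ narrow n k ∧
      narrow n k ≤ Real.exp (-(n * (k : ℝ) ^ (-(C * Real.log (Real.log k)))))) ∧
    ∀ᶠ b : ℝ in atTop, ∀ᶠ n : ℕ in atTop,
      Real.exp (-(n * b ^ (-(1 + a / Real.log (Real.log b))))) ≤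
        boxed n (Real.sqrt (b * n)) (Real.sqrt (b * n))) ∧
    ∀ θ : ℝ, 0 < θ → θ < 1 →
      (∀ ε : ℝ, 0 < ε → ∀ᶠ z in 𝓝[<] (1 / μ), ξ z ≤ (1 / μ - z) ^ (-(θ + ε))) →
      ∀ ε : ℝ, 0 < ε →
        (∀ᶠ k : ℕ in atTop, ∀ᶠ n : ℕ in atTop,
          Real.exp (-(n * (k : ℝ) ^ (-(1 / θ - ε)))) ≤ narrow n k ∧
          narrow n k ≤ Real.exp (-(n * (k : ℝ) ^ (-(1 / (1 - θ) + ε))))) ∧
        (1 / 2 < θ → ∀ᶠ b : ℝ in atTop, ∀ᶠ n : ℕ in atTop,
          Real.exp (-(n * b ^ (-(1 / (2 * θ - 1) - ε)))) ≤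
            boxed n (Real.sqrt (b * n)) (Real.sqrt (b * n))) := by
  have hmu := H981.mu_pos
  have hB := Pool.Agent.T6.H53.CP.blk
  have hC := Pool.Agent.T6.H53.CP.chn
  have hS := Pool.Agent.T6.H53.CP.side
  have hL := Pool.Agent.T6.H53.CP.loop
  have hbox := Pool.Agent.T6.H53.CP.box hB hC hS hL
  have hboxes := Pool.Agent.T6.H53.CP.boxes hB hC hS Pool.Agent.T6.H53.CP.snake
    Pool.Agent.T6.H53.CP.cls
  obtain ⟨C1, hC1, h1⟩ := Pool.Agent.T6.H53.CP.low' hbox hC hS hL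
    (fun _ h => Pool.Agent.T6.H53.CP.xi_ev h)
  obtain ⟨C2, hC2, h2⟩ := Pool.Agent.T6.H53.CP.upp
  obtain ⟨C3, hC3, h3⟩ := Pool.Agent.T6.H53.CP.upp_expl Pool.Agent.T6.H53.CP.upp
  obtain ⟨a1, ha1, h4⟩ := Pool.Agent.T6.H53.CP.low_expl hbox Pool.Agent.T6.H53.CP.expl
  obtain ⟨C5, hC5, h5⟩ := Pool.Agent.T6.H53.CP.box_sym hboxes
  obtain ⟨a2, ha2, h6⟩ := Pool.Agent.T6.H53.CP.sq_expl hboxes Pool.Agent.T6.H53.CP.expl
  have hl : Tendsto (fun k : ℕ => Real.log (k : ℝ)) atTop atTop :=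
    Real.tendsto_log_atTop.comp tendsto_natCast_atTop_atTop
  have hll : Tendsto (fun k : ℕ => Real.log (Real.log (k : ℝ))) atTop atTop :=
    Real.tendsto_log_atTop.comp hl
  have hll' : Tendsto (fun b : ℝ => Real.log (Real.log b)) atTop atTop :=
    Real.tendsto_log_atTop.comp Real.tendsto_log_atTop
  obtain ⟨C, hCdef⟩ : ∃ C, C = C1 + C2 + C3 + C5 := ⟨_, rfl⟩
  have hCC1 : C1 ≤ C := by linarith
  have hCC2 : C2 ≤ C := by linarith
  have hCC3 : C3 ≤ C := by linarith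
  have hCC5 : C5 ≤ C := by linarith
  -- a smaller `a` is weaker
  have hmono : ∀ (x a a' : ℝ) (n : ℕ), 1 ≤ x → 0 < Real.log (Real.log x) → a' ≤ a →
      Real.exp (-(n * x ^ (-(1 + a' / Real.log (Real.log x))))) ≤
        Real.exp (-(n * x ^ (-(1 + a / Real.log (Real.log x))))) := by
    intro x a a' n hx hlx ha
    apply Real.exp_le_exp.2
    apply neg_le_neg
    apply mul_le_mul_of_nonneg_left _ (Nat.cast_nonneg _)
    apply Real.rpow_le_rpow_of_exponent_le hx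
    have := div_le_div_of_nonneg_right ha hlx.le
    linarith
  refine ⟨H981.mu, Y981.L2.xi, Y981.L2.R, C, min a1 a2, hmu, by linarith, lt_min ha1 ha2, ?_, ?_,
    ?_, ?_, ?_, ⟨?_, ?_⟩, ?_⟩
  · refine H981.tendsto_root.congr ?_
    intro n
    rw [c_eq, TH795.EP.c_eq]
  · intro z hz hz1
    have he : 0 < -Real.log (z * H981.mu) := by
      have h1 : z * H981.mu < 1 := by rwa [lt_div_iff₀ hmu] at hz1
      have h2 := Real.log_neg (mul_pos hz hmu) h1
      linarith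
    have hm := Y981.L2.mass_pos he
    constructor
    · unfold Y981.L2.xi
      positivity
    · have h := Y981.L2.G_tendsto hz hz1
      unfold Y981.L2.xi
      rw [one_div_one_div]
      refine h.congr ?_
      intro k
      rw [G_eq]
  · exact fun u hu hu1 => ⟨Pool.Agent.T6.H53.WL.R_pos hu hu1.le,
      (Pool.Agent.T6.H53.WL.ldp hu hu1).1⟩
  · intro N hN n hn ℓ hℓ
    have hN0 : (0 : ℝ) < N := by exact_mod_cast (by omega : 0 < N)
    have hl1 : 0 < Real.log N := Real.log_pos (by exact_mod_cast (by omega : 1 < N))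
    have hxi : 0 < Y981.L2.xi (Real.exp (-(1 / (N : ℝ))) / H981.mu) := by
      rw [Pool.Agent.T6.H53.CP.xi_exp]
      have := Y981.L2.mass_pos (show 0 < 1 / (N : ℝ) by positivity)
      positivity
    have hℓ0 : 0 ≤ ℓ := by
      rw [hℓ]
      positivity
    have g0 : ∀ D : ℝ, D ≤ C → D * (N : ℝ) ^ 2 ≤ n := fun D hD =>
      (mul_le_mul_of_nonneg_right hD (by positivity)).trans hn
    have g1 : ∀ D : ℝ, D ≤ C → ∀ x y : ℝ, 0 ≤ x → C * x ≤ y → D * x ≤ y := fun D hD x y hx hxy =>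
      (mul_le_mul_of_nonneg_right hD hx).trans hxy
    have g2 : ∀ D : ℝ, D ≤ C → Real.exp (-(C * (n / N * Real.log N ^ 2))) ≤
        Real.exp (-(D * (n / N * Real.log N ^ 2))) := fun D hD =>
      Real.exp_le_exp.2 (neg_le_neg (mul_le_mul_of_nonneg_right hD (by positivity)))
    constructor
    · intro W H hW hH hM hWH
      exact (g2 C5 hCC5).trans (h5 N hN n (g0 C5 hCC5) W H ℓ hℓ (g1 C5 hCC5 _ _ hℓ0 hW)
        (g1 C5 hCC5 _ _ hℓ0 hH) (g1 C5 hCC5 _ _ (by positivity) hM)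
        (g1 C5 hCC5 _ _ (by positivity) hWH))
    · intro k hk
      refine (g2 C1 hCC1).trans (h1 N hN n (g0 C1 hCC1) k ?_)
      rw [← hℓ]
      exact g1 C1 hCC1 _ _ hℓ0 hk
  · intro n hn k hk hkn
    have h := h2 n hn k hk (by omega)
    rw [← Pool.Agent.T6.H53.CP.nrw_eq (by omega)] at h
    refine le_trans h (Real.exp_le_exp.2 ?_)
    have : C2 * Real.log (n : ℝ) ^ 2 ≤ C * Real.log n ^ 2 :=
      mul_le_mul_of_nonneg_right hCC2 (by positivity)
    linarith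
  · filter_upwards [h3, h4, eventually_ge_atTop 1, hll.eventually_ge_atTop 1] with k g3 g4 hk hlk
    have hk1 : (1 : ℝ) ≤ k := by exact_mod_cast hk
    filter_upwards [g3, g4] with n g5 g6
    refine ⟨(hmono k a1 (min a1 a2) n hk1 (by linarith) (min_le_left _ _)).trans g6,
      g5.trans (Real.exp_le_exp.2 (neg_le_neg ?_))⟩
    apply mul_le_mul_of_nonneg_left _ (Nat.cast_nonneg _)
    apply Real.rpow_le_rpow_of_exponent_le hk1
    apply neg_le_neg
    exact mul_le_mul_of_nonneg_right hCC3 (by linarith)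
  · filter_upwards [h6, eventually_ge_atTop 1, hll'.eventually_ge_atTop 1] with b g6 hb hlb
    filter_upwards [g6] with n g7
    exact (hmono b a2 (min a1 a2) n hb (by linarith) (min_le_right _ _)).trans g7
  · intro θ h0 h1' hM ε hε
    constructor
    · filter_upwards [Pool.Agent.T6.H53.CP.low_expo' hbox Pool.Agent.T6.H53.CP.expo h0 h1' hM hε,
        Pool.Agent.T6.H53.CP.upp_expo Pool.Agent.T6.H53.CP.upp h0 h1' hM hε] with k g1 g2
      filter_upwards [g1, g2] with n g3 g4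
      exact ⟨g3, g4⟩
    · intro hθ
      exact Pool.Agent.T6.H53.CP.sq_expo hboxes Pool.Agent.T6.H53.CP.expo h0 h1'
        ((Y981.L2.xi_upper θ h0).2 hM) hε hθ

end Pool.Agent.Results.MP_c23e5f_co.ConfinedPolygons
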