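import Pool.Agent.T6.H44.PG.Low
import Pool.Agent.T6.H53.AL.Area2

/-!
The joint law of the width and of the height of the planar self-avoiding polygons.
-/

set_option autoImplicit false

namespace Pool.Agent.Results.MP_c23e5f_co.WidthAndHeight

open Filter Topology

/-- a closed nearest-neighbour loop on `ℤ²` with `m` steps, rooted at the origin and oriented,
that visits no vertex twice -/
def IsLoop (m : ℕ) (f : ZMod m → ℤ × ℤ) : Prop :=
  f 0 = 0 ∧ Function.Injective f ∧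
    ∀ i : ZMod m, |(f (i + 1)).1 - (f i).1| + |(f (i + 1)).2 - (f i).2| = 1

/-- `Prob(w_n ≥ k, h_n ≥ l)`: the proportion of the self-avoiding polygons of perimeter `2 n` with
width (horizontal extent) at least `k` and height (vertical extent) at least `l` -/
noncomputable def prob (n k l : ℕ) : ℝ :=
  ({f : ZMod (2 * n) → ℤ × ℤ | IsLoop (2 * n) f ∧ (∃ i j, (k : ℤ) ≤ (f i).1 - (f j).1) ∧
    ∃ i j, (l : ℤ) ≤ (f i).2 - (f j).2}.ncard : ℝ) /
    ({f : ZMod (2 * n) → ℤ × ℤ | IsLoop (2 * n) f}.ncard : ℝ)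

/-- `ω` is an `n`-step self-avoiding walk on `ℤ²` started at the origin. -/
def IsSAW (n : ℕ) (ω : Fin (n + 1) → ℤ × ℤ) : Prop :=
  ω 0 = (0, 0) ∧
  (∀ i : Fin n, |(ω i.succ).1 - (ω i.castSucc).1| + |(ω i.succ).2 - (ω i.castSucc).2| = 1) ∧
  Function.Injective ω

/-- `c_n`: the number of `n`-step self-avoiding walks from the origin -/
noncomputable def c (n : ℕ) : ℕ := Nat.card {ω : Fin (n + 1) → ℤ × ℤ // IsSAW n ω}

/-- `c_n(x)`: the number of `n`-step self-avoiding walks from the origin to `x` -/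
noncomputable def cx (n : ℕ) (x : ℤ × ℤ) : ℕ :=
  Nat.card {ω : Fin (n + 1) → ℤ × ℤ // IsSAW n ω ∧ ω (Fin.last n) = x}

/-- `P_n(ω(n) = x)`, the probability that the uniform `n`-step self-avoiding walk ends at `x` -/
noncomputable def P (n : ℕ) (x : ℤ × ℤ) : ℝ := (cx n x : ℝ) / (c n : ℝ)

theorem c_eq (n : ℕ) : c n = TH795.EP.c n := TH795.EP2.card_walks n

theorem cx_eq (n : ℕ) (x : ℤ × ℤ) : cx n x = TH795.EP.a n x.1 x.2 := TH795.EP2.card_walks_to n x

/-- **Theorem.** There are a function `I` on the square `|v₁| + |v₂| ≤ 1` and a constant `C` with: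
(1) `I` is convex, even and symmetric in the two coordinates, `I(v) > 0` for `v ≠ 0`, and `I` is the
rate function of the end point of the self-avoiding walk:
`|log P_n(ω(n) = x) + n I(x / n)| ≤ C (log n)²` for all `n ≥ 2` and all `x ≠ 0` which an `n`-step
walk can reach;
(2) for the width `w_n` and the height `h_n` of the uniform self-avoiding polygon of perimeter
`2 n`, `n ≥ 2`, and all `k, l ≥ 1` with `k + l ≤ n`:
`|log Prob(w_n ≥ k, h_n ≥ l) + 2 n I(k/n, l/n)| ≤ C (log n)²`;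
(3) the probability in (2) is `0` if `k + l > n`. -/
theorem result : ∃ (I : ℝ × ℝ → ℝ) (C : ℝ), 0 < C ∧
    (ConvexOn ℝ {v : ℝ × ℝ | |v.1| + |v.2| ≤ 1} I ∧
      (∀ v : ℝ × ℝ, |v.1| + |v.2| ≤ 1 → I (|v.1|, |v.2|) = I v ∧ I (v.2, v.1) = I v ∧
        (v ≠ 0 → 0 < I v)) ∧
      ∀ n : ℕ, 2 ≤ n → ∀ x : ℤ × ℤ, x ≠ 0 → (x.1 + x.2 - n) % 2 = 0 → |x.1| + |x.2| ≤ n →
        |Real.log (P n x) + n * I ((x.1 : ℝ) / n, (x.2 : ℝ) / n)| ≤ C * Real.log n ^ 2) ∧
    ∀ n : ℕ, 2 ≤ n → ∀ k l : ℕ, 1 ≤ k → 1 ≤ l →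
      (k + l ≤ n → |Real.log (prob n k l) + 2 * n * I ((k : ℝ) / n, (l : ℝ) / n)| ≤
        C * Real.log n ^ 2) ∧
      (n < k + l → prob n k l = 0) := by
  obtain ⟨C1, hC1, h1⟩ := Pool.Agent.Y981.L2.ldp_words
  obtain ⟨C2, hC2, h2⟩ := Pool.Agent.T6.H44.PG.joint_lower
  obtain ⟨C3, hC3, h3⟩ := Pool.Agent.T6.H53.AL.joint_tail
  have hL : ∀ n : ℕ, 0 ≤ Real.log (n : ℝ) ^ 2 := fun n => by positivity
  refine ⟨Pool.Agent.Y981.L2.Rate, C1 + C2 + C3 + 1, by linarith,
    ⟨Pool.Agent.Y981.L2.convex_rate, ?_, ?_⟩, ?_⟩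
  · intro v hv
    exact ⟨Pool.Agent.T6.H44.PG.rate_abs hv, Pool.Agent.T6.H53.AL.rate_sw hv,
      Pool.Agent.T6.H44.PG.rate_pos hv⟩
  · intro n hn x hx hpar hle
    have h := h1 n hn x.1 x.2 hx hpar hle
    unfold P
    rw [c_eq, cx_eq]
    exact h.trans (mul_le_mul_of_nonneg_right (by linarith) (hL n))
  · intro n hn k l hk hl
    constructor
    · intro hkl
      have g1 := h2 n hn k l (by exact_mod_cast hk) (by exact_mod_cast hl) (by exact_mod_cast hkl)
      have g2 := h3 n hn k l (by exact_mod_cast hk) (by omega)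
      have e : prob n k l = ({f : ZMod (2 * n) → ℤ × ℤ | H981.IsLoop (2 * n) f ∧
          (∃ i j, (k : ℤ) ≤ (f i).1 - (f j).1) ∧ ∃ i j, (l : ℤ) ≤ (f i).2 - (f j).2}.ncard : ℝ) /
          Pool.Agent.Y981.L2.ln n := rfl
      rw [← e] at g1 g2
      have hp : 0 < prob n k l := (Real.exp_pos _).trans_le g1
      have g3 := (Real.le_log_iff_exp_le hp).2 g1
      have g4 := (Real.log_le_iff_le_exp hp).2 g2
      have g5 := mul_le_mul_of_nonneg_right (show C2 ≤ C1 + C2 + C3 + 1 by linarith) (hL n)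
      have g6 := mul_le_mul_of_nonneg_right (show C3 ≤ C1 + C2 + C3 + 1 by linarith) (hL n)
      simp only [Int.cast_natCast] at g3 g4
      rw [abs_le]
      constructor <;> linarith
    · intro hkl
      have e : {f : ZMod (2 * n) → ℤ × ℤ | IsLoop (2 * n) f ∧
          (∃ i j, (k : ℤ) ≤ (f i).1 - (f j).1) ∧ ∃ i j, (l : ℤ) ≤ (f i).2 - (f j).2} = ∅ := by
        rw [Set.eq_empty_iff_forall_notMem]
        intro f hf
        have := Pool.Agent.T6.H53.AL.wh_le (n := n) (A := k) (B := l) (by omega)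
          (by exact_mod_cast hk) ⟨f, hf⟩
        omega
      unfold prob
      rw [e]
      simp

end Pool.Agent.Results.MP_c23e5f_co.WidthAndHeight
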