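import Pool.Agent.T6.H53.WL.Tail

/-!
The width of the planar self-avoiding polygons: the large deviation principle, explicit bounds of
the rate function, the corresponding bounds of the tail for every `n`, the typical size and all the
moments.
-/

set_option autoImplicit false

namespace Pool.Agent.Results.MP_c23e5f_co.WidthLargeDeviations

open Filter Topology

/-- a closed nearest-neighbour loop on `ℤ²` with `m` steps, rooted at the origin and oriented,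
that visits no vertex twice -/
def IsLoop (m : ℕ) (f : ZMod m → ℤ × ℤ) : Prop :=
  f 0 = 0 ∧ Function.Injective f ∧
    ∀ i : ZMod m, |(f (i + 1)).1 - (f i).1| + |(f (i + 1)).2 - (f i).2| = 1

/-- the width (horizontal extent) of a loop -/
noncomputable def width (m : ℕ) (f : ZMod m → ℤ × ℤ) : ℕ :=
  sSup {w : ℕ | ∃ i j, w = ((f i).1 - (f j).1).natAbs}

/-- `Prob(w_n ≥ r)`: the proportion of the self-avoiding polygons of perimeter `2 n` with width at
least `r` -/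
noncomputable def wide (n : ℕ) (r : ℝ) : ℝ :=
  ({f : ZMod (2 * n) → ℤ × ℤ | IsLoop (2 * n) f ∧ r ≤ width (2 * n) f}.ncard : ℝ) /
    ({f : ZMod (2 * n) → ℤ × ℤ | IsLoop (2 * n) f}.ncard : ℝ)

/-- `Prob(r ≤ w_n < s)` -/
noncomputable def between (n : ℕ) (r s : ℝ) : ℝ :=
  ({f : ZMod (2 * n) → ℤ × ℤ | IsLoop (2 * n) f ∧ r ≤ width (2 * n) f ∧
    (width (2 * n) f : ℝ) < s}.ncard : ℝ) /
    ({f : ZMod (2 * n) → ℤ × ℤ | IsLoop (2 * n) f}.ncard : ℝ)

/-- `E[w_n ^ p]`: the `p`-th moment of the width of the uniform self-avoiding polygon of perimeter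
`2 n` -/
noncomputable def moment (p n : ℕ) : ℝ :=
  (∑ᶠ f ∈ {f : ZMod (2 * n) → ℤ × ℤ | IsLoop (2 * n) f}, (width (2 * n) f : ℝ) ^ p) /
    ({f : ZMod (2 * n) → ℤ × ℤ | IsLoop (2 * n) f}.ncard : ℝ)

/-- `ω` is an `n`-step self-avoiding walk on `ℤ²` started at the origin. -/
def IsSAW (n : ℕ) (ω : Fin (n + 1) → ℤ × ℤ) : Prop :=
  ω 0 = (0, 0) ∧
  (∀ i : Fin n, |(ω i.succ).1 - (ω i.castSucc).1| + |(ω i.succ).2 - (ω i.castSucc).2| = 1) ∧
  Function.Injective ω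

/-- `c_n`: the number of `n`-step self-avoiding walks from the origin -/
noncomputable def c (n : ℕ) : ℕ := Nat.card {ω : Fin (n + 1) → ℤ × ℤ // IsSAW n ω}

/-- `Y(u) = (1 + log (1/u)) (1 + log (1 + log (1/u)))` -/
noncomputable def Y (u : ℝ) : ℝ :=
  (1 + Real.log (1 / u)) * (1 + Real.log (1 + Real.log (1 / u)))

theorem c_eq (n : ℕ) : c n = TH795.EP.c n := TH795.EP2.card_walks n

/-- **Theorem.** Let `w_n` be the width of the uniform self-avoiding polygon of perimeter `2 n` and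
`μ = lim c_n^(1/n)` the connective constant.  There are a function `J` and a constant `C > 0` with:
(1) `J` is convex, continuous and strictly increasing on `[0, 1]`, `J(0) = 0`, `J(1) = log μ`, and
`exp(- C Y(u)) ≤ J(u) ≤ C u² (1 + log (1/u))²` for `0 < u ≤ 1`;
(2) `(1/n) log Prob(w_n ≥ u n) → - 2 J(u)` for `0 < u < 1`, and
`(1/n) log Prob(u n ≤ w_n < v n) → - 2 J(u)` for `0 < u < v < 1`;
(3) for all `1 ≤ k < n`: `exp(- C ((k²/n) (1 + log (n/k))² + (log n)²)) ≤ Prob(w_n ≥ k) ≤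
exp(C (log n)² - 2 n exp(- C Y(k/n)))`;
(4) for every `δ < 1` there are `a, A > 0` with
`Prob(w_n ≥ n^(1 - a / log log n)) ≤ A exp(- n^δ)` for all `n ≥ 16`;
(5) there is `a > 0` such that for every `p` there is `D` with
`E[w_n ^ p] ≤ D (n^(1 - a / log log n))^p` for all `n ≥ 16`. -/
theorem result : ∃ (μ : ℝ) (J : ℝ → ℝ) (C : ℝ), 0 < C ∧
    Tendsto (fun n : ℕ => (c n : ℝ) ^ (1 / (n : ℝ))) atTop (𝓝 μ) ∧
    (ConvexOn ℝ (Set.Icc 0 1) J ∧ ContinuousOn J (Set.Icc 0 1) ∧ StrictMonoOn J (Set.Icc 0 1) ∧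
      J 0 = 0 ∧ J 1 = Real.log μ ∧ ∀ u : ℝ, 0 < u → u ≤ 1 →
        Real.exp (-(C * Y u)) ≤ J u ∧ J u ≤ C * (u ^ 2 * (1 + Real.log (1 / u)) ^ 2)) ∧
    ((∀ u : ℝ, 0 < u → u < 1 →
        Tendsto (fun n : ℕ => Real.log (wide n (u * n)) / n) atTop (𝓝 (-(2 * J u)))) ∧
      ∀ u v : ℝ, 0 < u → u < v → v < 1 →
        Tendsto (fun n : ℕ => Real.log (between n (u * n) (v * n)) / n) atTop
          (𝓝 (-(2 * J u)))) ∧
    (∀ n : ℕ, 2 ≤ n → ∀ k : ℕ, 1 ≤ k → k < n →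
      Real.exp (-(C * ((k : ℝ) ^ 2 / n * (1 + Real.log (n / k)) ^ 2 + Real.log n ^ 2))) ≤
        wide n k ∧
      wide n k ≤ Real.exp (C * Real.log n ^ 2 - 2 * n * Real.exp (-(C * Y ((k : ℝ) / n))))) ∧
    (∀ δ : ℝ, δ < 1 → ∃ a A : ℝ, 0 < a ∧ 0 < A ∧ ∀ n : ℕ, 16 ≤ n →
      wide n ((n : ℝ) ^ (1 - a / Real.log (Real.log n))) ≤ A * Real.exp (-(n : ℝ) ^ δ)) ∧
    ∃ a : ℝ, 0 < a ∧ ∀ p : ℕ, ∃ D : ℝ, 0 < D ∧ ∀ n : ℕ, 16 ≤ n →
      moment p n ≤ D * ((n : ℝ) ^ (1 - a / Real.log (Real.log n))) ^ p := by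
  obtain ⟨C1, hC1, h1⟩ := Pool.Agent.T6.H53.WL.R_lower
  obtain ⟨C2, hC2, h2⟩ := Pool.Agent.T6.H53.WL.R_upper
  obtain ⟨C3, hC3, h3⟩ := Pool.Agent.T6.H53.WL.wide_bounds
  set C := C1 + C2 + C3 with hC
  have hYpos : ∀ u : ℝ, 0 < u → u ≤ 1 → 0 ≤ Y u := fun u hu hu1 =>
    zero_le_one.trans (Pool.Agent.T6.H53.WL.one_le_Yv hu hu1)
  refine ⟨H981.mu, Pool.Agent.Y981.L2.R, C, by linarith, ?_,
    ⟨Pool.Agent.T6.H53.WL.R_convex, Pool.Agent.T6.H53.WL.R_cont, ?_,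
      Pool.Agent.Y981.L2.R_zero, Pool.Agent.T6.H53.WL.R_one, ?_⟩,
    ⟨fun u hu hu1 => (Pool.Agent.T6.H53.WL.ldp hu hu1).1,
      fun u v hu huv hv => Pool.Agent.T6.H53.WL.ldp_between hu huv hv⟩, ?_, ?_,
    Pool.Agent.T6.H53.WL.width_mom⟩
  · refine H981.tendsto_root.congr ?_
    intro n
    rw [c_eq, TH795.EP.c_eq]
  · intro u hu v hv huv
    exact Pool.Agent.T6.H53.WL.R_strict hu.1 huv hv.2
  · intro u hu hu1
    have hY := hYpos u hu hu1
    constructor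
    · refine le_trans (Real.exp_le_exp.2 ?_) (h1 u hu hu1)
      have : C1 * Y u ≤ C * Y u := mul_le_mul_of_nonneg_right (by linarith) hY
      exact neg_le_neg this
    · exact (h2 u hu hu1).trans (mul_le_mul_of_nonneg_right (by linarith) (by positivity))
  · intro n hn k hk hkn
    obtain ⟨g1, g2⟩ := h3 n hn k hk hkn
    have hn0 : (0 : ℝ) < n := by exact_mod_cast (by omega : 0 < n)
    have hk0 : (0 : ℝ) < k := by exact_mod_cast (by omega : 0 < k)
    have hu : 0 < (k : ℝ) / n := by positivity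
    have hu1 : (k : ℝ) / n ≤ 1 := by
      rw [div_le_one hn0]
      exact_mod_cast hkn.le
    have hY := hYpos _ hu hu1
    constructor
    · refine le_trans (Real.exp_le_exp.2 (neg_le_neg ?_)) g1
      exact mul_le_mul_of_nonneg_right (by linarith) (by positivity)
    · refine g2.trans (Real.exp_le_exp.2 ?_)
      have g3 : C3 * Real.log (n : ℝ) ^ 2 ≤ C * Real.log n ^ 2 :=
        mul_le_mul_of_nonneg_right (by linarith) (by positivity)
      have g4 : Real.exp (-(C * Y ((k : ℝ) / n))) ≤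
          Real.exp (-(C3 * Pool.Agent.T6.H53.WL.Yv ((k : ℝ) / n))) := by
        apply Real.exp_le_exp.2
        have : C3 * Y ((k : ℝ) / n) ≤ C * Y ((k : ℝ) / n) :=
          mul_le_mul_of_nonneg_right (by linarith) hY
        exact neg_le_neg this
      have g5 := mul_le_mul_of_nonneg_left g4 (show 0 ≤ 2 * (n : ℝ) by positivity)
      linarith
  · intro δ hδ
    obtain ⟨a, A, ha, -, hA, h⟩ := Pool.Agent.T6.H53.WL.width_typ (δ := max δ (1 / 2))
      (by have := le_max_right δ (1 / 2); linarith) (max_lt hδ (by norm_num))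
    refine ⟨a, A, ha, hA, fun n hn => (h n hn).trans ?_⟩
    have hn1 : (1 : ℝ) ≤ n := by exact_mod_cast (by omega : 1 ≤ n)
    apply mul_le_mul_of_nonneg_left _ hA.le
    apply Real.exp_le_exp.2
    exact neg_le_neg (Real.rpow_le_rpow_of_exponent_le hn1 (le_max_left _ _))

end Pool.Agent.Results.MP_c23e5f_co.WidthLargeDeviations
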